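import Pool.Agent.Helper15.PF.Main
import Pool.Agent.Helper89.CPB.MainD

/-!
# The sign conjecture over all fields and the Lefschetz conjecture over the prime field closure

The definitions are in `Pool.Agent.Helper29.CPB.Statement` (varieties, `CPlus`, `Kunneth`,
`Lefschetz`, generic sections), `Pool.Agent.Helper89.CPB.StatementD` (`ConjD`) and
`Pool.Agent.Helper15.PF.Statement` (families over curves, the fields of one characteristic).

Idea of the proof. Let `K` be an algebraic closure of the function field of a curve `C` over the
algebraically closed field `k`, let `X` over `K` have the special fibre `Xs` over `k`, and let `Z`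
over `k`, of dimension `n`, with a morphism to `C`, be an alteration of a compactification of the
family `X × X`. The class of a fibre of `Z` acts by `N = i_* i^*`, `N² = 0`. Under `B(Z)` there is
an algebraic `u` with `N u N = N`: on `H^(n-k)(Z)` put `T = k L^(-k) L^(k-1) N`. By hard Lefschetz
on the fibre and relative hard Lefschetz on `ker N / im N`, the projector onto the part where `T` is
invertible, a rational polynomial in `T`, is modulo `ker N` the projector onto the primitive part of
the invariant cycles, and one concludes by descending induction on `k`. The inverse of the Lefschetz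
isomorphism of `Xs` is algebraic by `B(Xs)` and monodromy invariant; so its class is `i^* z`, and
`u N z` is algebraic and restricts to `i^* z` by semisimplicity. So `B` goes from `k` to `K`.
-/

namespace Pool.Agent.Results.MP_56c18a_ag.PrimeFieldClosure

open Pool.Agent.Helper29.CPB Pool.Agent.Helper15.PF

universe u v

variable {F : Type u} [Field F]

/-- **Sign conjecture and prime field closure.** (1) Let `X` be defined over an algebraic closure of
the function field of a curve over the algebraically closed field `k`, with a model as in
`CurveModel`: then `B(X)` follows from `B` for two varieties over `k`, the special fibre and the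
total space. (2) For the varieties over the fields of one characteristic the following are
equivalent: `C⁺` over all fields in odd dimensions; `C⁺`, `C`, `B` over all fields; `B` over the
algebraic closure `k₀` of the prime field; `C⁺` for one generic hyperplane section of `X × X` for
each `X` over `k₀`. They hold if homological and numerical equivalence coincide on the `X × X`
over `k₀`. -/
theorem result [CharZero F] :
    (∀ (X Xs Z : Variety.{u, v} F), CurveModel X Xs Z → Xs.Lefschetz → Z.Lefschetz →
      X.Lefschetz) ∧
    (∀ G : Fields.{u, v} F,
      [∀ X ∈ G.all, Odd X.dim → X.CPlus, ∀ X ∈ G.all, X.CPlus, ∀ X ∈ G.all, X.Kunneth,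
        ∀ X ∈ G.all, X.Lefschetz, ∀ X ∈ G.closed 0, X.Lefschetz,
        ∀ X ∈ G.closed 0, 1 ≤ X.dim → ∃ (Z S : Variety.{u, v} F) (μ : X.H → X.H → Z.H),
          SelfProduct X Z μ ∧ Nonempty (GenericSection Z S 1) ∧ S.CPlus].TFAE ∧
      ((∀ X ∈ G.closed 0, X.ConjD) → ∀ X ∈ G.all, X.CPlus)) := by
  have one : ∀ (X Z S : Variety.{u, v} F) (μ : X.H → X.H → Z.H), SelfProduct X Z μ → 1 ≤ X.dim →
      GenericSection Z S 1 → S.CPlus → X.Lefschetz := by
    intro X Z S μ hsp hX G h
    obtain ⟨τ, hsq⟩ := hsp.isSquare
    apply lefschetz_of_inverse
    intro c hc hcn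
    exact inverses_of_cplus hsq 1 le_rfl hX G h c hc
  have zero : ∀ X : Variety.{u, v} F, X.dim = 0 → X.Lefschetz := by
    intro X h0
    apply lefschetz_of_inverse
    intro c hc hcn
    omega
  refine ⟨fun X Xs Z T hs hZ => T.lefschetz hs hZ, fun G => ⟨?_, ?_⟩⟩
  · tfae_have 1 → 6 := by
      intro h X hX hpos
      obtain ⟨Z, μ, hsp, S, hS, ⟨T⟩⟩ := G.sections X (G.closed_subset 0 hX) hpos
      have h1 := T.dim
      have h2 := hsp.dim
      exact ⟨Z, S, μ, hsp, ⟨T⟩, h S hS ⟨X.dim - 1, by omega⟩⟩
    tfae_have 6 → 5 := by
      intro h X hX
      rcases Nat.eq_zero_or_pos X.dim with h0 | hpos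
      · exact zero X h0
      · obtain ⟨Z, S, μ, hsp, ⟨T⟩, hS⟩ := h X hX hpos
        exact one X Z S μ hsp hpos T hS
    tfae_have 5 → 4 := G.lefschetz
    tfae_have 4 → 3 := fun h X hX => kunneth_of_lefschetz X (h X hX)
    tfae_have 3 → 2 := fun h X hX => cplus_of_kunneth X (h X hX)
    tfae_have 2 → 1 := fun h X hX _ => h X hX
    tfae_finish
  · intro h X hX
    exact cplus_of_kunneth X (kunneth_of_lefschetz X (G.lefschetz
      (fun Y hY => lefschetz_of_conjD (h Y hY)) X hX))

end Pool.Agent.Results.MP_56c18a_ag.PrimeFieldClosure
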