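import Pool.Agent.Helper15.PF.Regular
import Pool.Agent.Helper94.CPB.OneSection
import Pool.Agent.Helper29.CPB.Main

/-!
# From the special fibre to the generic fibre, and from closed fields to all fields
-/

set_option linter.unusedSectionVars false

namespace Pool.Agent.Helper15.PF

open Pool.Agent.Helper29.CPB

universe u v

variable {F : Type u} [Field F] [CharZero F]

/-- `B(Z)` implies the variational Tate conjecture for a fibration of `Z` over a curve. -/
theorem Fibration.variational {Z : Variety.{u, v} F} (T : Fibration Z) (hB : Z.Lefschetz) :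
    T.Variational := by
  intro ξ hξ hcyc
  obtain ⟨z, rfl⟩ := (T.cycles.invariant ξ).mp hξ
  obtain ⟨u, hu, hu2⟩ := T.regular hB (kunneth_of_lefschetz Z hB)
  refine ⟨u (T.N z), T.cyc_alg _ _ _ hu hcyc, ?_⟩
  rw [← sub_eq_zero, ← map_sub]
  apply T.up_eq_zero
  rw [map_sub, hu2 z, sub_self]

lemma Intertwines.pow {V W : Type v} [AddCommGroup V] [Module F V] [AddCommGroup W]
    [Module F W] {φ : V →ₗ[F] W} {f : Module.End F V} {g : Module.End F W}
    (h : Intertwines φ f g) (k : ℕ) (x : V) : φ ((f ^ k) x) = (g ^ k) (φ x) := by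
  induction k generalizing x with
  | zero => simp
  | succ k ih => rw [pow_succ, Module.End.mul_apply, pow_succ, Module.End.mul_apply, ih, h]

/-- `B` for the special fibre and for the total space imply `B` for the generic fibre. -/
theorem CurveModel.lefschetz {X Xs Z : Variety.{u, v} F} (T : CurveModel X Xs Z)
    (hs : Xs.Lefschetz) (hZ : Z.Lefschetz) : X.Lefschetz := by
  intro i hi
  have hdim := T.same.dim
  have hKs := kunneth_of_lefschetz Xs hs
  obtain ⟨θ₀, hθ₀, hinv⟩ := hs i (by rw [hdim]; exact hi)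
  rw [hdim] at hinv hθ₀
  -- the canonical inverse
  set j : ℤ := 2 * X.dim - i with hj
  have hθ : θ₀ * Xs.π j ∈ Xs.corr ((i : ℤ) - X.dim) := Xs.corr_mul' (by ring) hθ₀ (hKs j)
  set θ := θ₀ * Xs.π j with hθdef
  have hvalue : ∀ x, Xs.π i x = x → θ ((Xs.L ^ (X.dim - i)) x) = x := by
    intro x hx
    rw [hθdef, Module.End.mul_apply, Xs.corr_homog (Xs.Lpow_corr (X.dim - i)) (i := i) (by omega)
      hx]
    exact hinv x hx
  have hfix : ∀ g, Intertwines (T.mon g) θ θ := by
    intro g
    have h2 : T.mon g * θ = θ * T.mon g := by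
      apply Xs.ext_homog
      intro l x hx
      show T.mon g (θ x) = θ (T.mon g x)
      have hx' : Xs.π l (T.mon g x) = T.mon g x := by
        have := T.action_mon.comm_π g l x
        rw [← this, hx]
      by_cases hl : l = j
      · subst hl
        obtain ⟨y, hy, hyx⟩ := Xs.hard_surj i (by rw [hdim]; exact hi) x (by
          rw [hdim]; exact hx)
        rw [hdim] at hyx
        have hy' : Xs.π i (T.mon g y) = T.mon g y := by
          have := T.action_mon.comm_π g i y
          rw [← this, hy]
        rw [← hyx, hvalue y hy, (T.action_mon.comm_L g).pow, hvalue _ hy']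
      · have h1 : ∀ z, Xs.π l z = z → θ z = 0 := by
          intro z hz
          rw [hθdef, Module.End.mul_apply, Xs.π_apply_ne (Ne.symm hl) hz, map_zero]
        rw [h1 _ hx', h1 _ hx, map_zero]
    intro x
    exact congrArg (fun f => f x) h2
  obtain ⟨β, hβ, hβ2⟩ := T.toFibration.variational hZ (T.pull θ) (T.isPull.invariant θ hfix)
    (T.isPull.algebraic _ θ hθ)
  let e : X.H ≃ₗ[F] Xs.H := LinearEquiv.ofBijective T.sp T.same.bij
  have he : ∀ x, e x = T.sp x := fun x => rfl
  have hint : Intertwines T.sp (e.symm.conj θ) θ := by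
    intro x
    rw [← he, LinearEquiv.conj_apply_apply, LinearEquiv.apply_symm_apply,
      LinearEquiv.symm_symm, he]
  refine ⟨e.symm.conj θ, T.isPush _ θ β (fun l x => Xs.corr_deg_apply hθ l x) hβ hβ2 _ hint, ?_⟩
  intro x hx
  apply T.same.bij.1
  rw [hint, T.same.polar.pow, hvalue]
  rw [← T.same.deg i x, hx]

/-- `B` is compatible with extensions of the base field. -/
theorem Descent.lefschetz {X₀ X : Variety.{u, v} F} (T : Descent X₀ X) (h : X₀.Lefschetz) :
    X.Lefschetz := by
  intro i hi
  have hdim := T.same.dim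
  obtain ⟨θ, hθ, hinv⟩ := h i (by rw [hdim]; exact hi)
  rw [hdim] at hθ hinv
  let e : X.H ≃ₗ[F] X₀.H := LinearEquiv.ofBijective T.e T.same.bij
  have he : ∀ x, e x = T.e x := fun x => rfl
  have hint : Intertwines T.e (e.symm.conj θ) θ := by
    intro x
    rw [← he, LinearEquiv.conj_apply_apply, LinearEquiv.apply_symm_apply,
      LinearEquiv.symm_symm, he]
  obtain ⟨f', hf', m, σ, τ, hm, hστ, hmean⟩ := T.mean _ θ _ hθ hint
  have hconj : ∀ x, X.π i x = x → (e.symm.conj θ) ((X.L ^ (X.dim - i)) x) = x := by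
    intro x hx
    apply T.same.bij.1
    rw [hint, T.same.polar.pow, hinv]
    rw [← T.same.deg i x, hx]
  refine ⟨f', hf', ?_⟩
  intro x hx
  have hterm : ∀ a, (T.ρ (σ a) * e.symm.conj θ * T.ρ (τ a)) ((X.L ^ (X.dim - i)) x) = x := by
    intro a
    have hx' : X.π i (T.ρ (τ a) x) = T.ρ (τ a) x := by
      have := T.action.comm_π (τ a) i x
      rw [← this, hx]
    rw [Module.End.mul_apply, Module.End.mul_apply, (T.action.comm_L (τ a)).pow, hconj _ hx',
      ← Module.End.mul_apply, hστ a, Module.End.one_apply]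
  have hm0 : (m : F) ≠ 0 := by exact_mod_cast (by omega : m ≠ 0)
  have h1 : (m : F) • f' ((X.L ^ (X.dim - i)) x) = (m : F) • x := by
    rw [← LinearMap.smul_apply, hmean, LinearMap.sum_apply, Finset.sum_congr rfl fun a _ => hterm a,
      Finset.sum_const, Finset.card_univ, Fintype.card_fin, ← Nat.cast_smul_eq_nsmul F]
  exact smul_right_injective _ hm0 h1

/-- `B` over the algebraic closure of the prime field implies `B` over all fields. -/
theorem Fields.lefschetz (G : Fields.{u, v} F) (h : ∀ X ∈ G.closed 0, X.Lefschetz) :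
    ∀ X ∈ G.all, X.Lefschetz := by
  have hn : ∀ n, ∀ X ∈ G.closed n, X.Lefschetz := by
    intro n
    induction n with
    | zero => exact h
    | succ n ih =>
      intro X hX
      obtain ⟨Xs, hs, Z, hZ, ⟨T⟩⟩ := G.curve n X hX
      exact T.lefschetz (ih Xs hs) (ih Z hZ)
  intro X hX
  obtain ⟨n, X₀, h₀, ⟨T⟩⟩ := G.descent X hX
  exact T.lefschetz (hn n X₀ h₀)

end Pool.Agent.Helper15.PF
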