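import Pool.Agent.Helper15.PF.Statement
import Pool.Agent.Helper29.CPB.Graded
import Pool.Agent.Helper29.CPB.Idem
import Pool.Agent.Helper64.CPB.Converse

/-!
# The class of a fibre is a regular element of the algebra of algebraic correspondences
-/

set_option linter.unusedSectionVars false

namespace Pool.Agent.Helper15.PF

open Pool.Agent.Helper29.CPB Polynomial

universe u v

variable {F : Type u} [Field F] [CharZero F] {Z : Variety.{u, v} F}

/-- A correspondence of degree zero concentrated in one degree has a quasi-inverse, up to a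
nilpotent part, which is a rational polynomial in it. -/
lemma fitting (T : Module.End F Z.H) (j : ℤ) (hT : T ∈ Z.corr 0) (hj : T * Z.π j = T) :
    ∃ P ∈ Z.corr 0, ∃ M : ℕ, P * T = T * P ∧ T ^ M * (1 - P * T) = 0 := by
  have hT' : ∀ m, 1 ≤ m → T ^ m * Z.sgn = ((-1 : F) ^ j.natAbs) • T ^ m := by
    intro m hm
    obtain ⟨m, rfl⟩ : ∃ m', m = m' + 1 := ⟨m - 1, by omega⟩
    have h1 : T * Z.sgn = ((-1 : F) ^ j.natAbs) • T := by
      apply Z.ext_homog
      intro i x hx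
      rw [Module.End.mul_apply, Z.sgn_apply hx, map_smul, LinearMap.smul_apply]
      by_cases hij : i = j
      · rw [hij]
      · have : T x = 0 := by
          rw [← hj, Module.End.mul_apply, Z.π_apply_ne (Ne.symm hij) hx, map_zero]
        rw [this, smul_zero, smul_zero]
    rw [pow_succ, mul_assoc, h1, mul_smul_comm]
  have htr : ∀ m, 1 ≤ m → ∃ q : ℚ, LinearMap.trace F Z.H (T ^ m) = (q : F) := by
    intro m hm
    obtain ⟨q, hq⟩ := Z.corr_rat (T ^ m) (Z.corr_pow_zero hT m)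
    have hq' : LinearMap.trace F Z.H (T ^ m * Z.sgn) = (q : F) := hq
    rw [hT' m hm, map_smul, smul_eq_mul] at hq'
    refine ⟨(-1) ^ j.natAbs * q, ?_⟩
    rw [Rat.cast_mul, ← hq', Rat.cast_pow, Rat.cast_neg, Rat.cast_one, ← mul_assoc, ← mul_pow,
      neg_one_mul, neg_neg, one_pow, one_mul]
  obtain ⟨p, hp⟩ := rational_charpoly' T htr
  have hp0 : p ≠ 0 := by
    rintro rfl
    rw [Polynomial.map_zero] at hp
    exact T.charpoly_monic.ne_zero hp.symm
  obtain ⟨ψ, hψ, hψ0⟩ := Polynomial.exists_eq_pow_rootMultiplicity_mul_and_not_dvd p hp0 0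
  rw [C_0, sub_zero] at hψ hψ0
  set m := p.rootMultiplicity 0 with hm
  have hco : IsCoprime (X : ℚ[X]) ψ :=
    (Polynomial.prime_X.irreducible.coprime_iff_not_dvd).mpr hψ0
  obtain ⟨a, b, hab⟩ := hco
  have hchar : aeval T (p.map (algebraMap ℚ F)) = 0 := by
    rw [hp]; exact LinearMap.aeval_self_charpoly T
  refine ⟨aeval T (a.map (algebraMap ℚ F)), Z.corr_aeval hT a, m, ?_, ?_⟩
  · have h2 : aeval T (a.map (algebraMap ℚ F) * X) = aeval T (X * a.map (algebraMap ℚ F)) := by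
      rw [mul_comm]
    rw [map_mul, map_mul, aeval_X] at h2
    exact h2
  · have h1 : (X : ℚ[X]) ^ m * (1 - a * X) = b * p := by
      linear_combination (X : ℚ[X]) ^ m * hab * (-1) + (-b) * hψ
    have h2 := congrArg (fun q : ℚ[X] => aeval T (q.map (algebraMap ℚ F))) h1
    simp only [Polynomial.map_mul, Polynomial.map_pow, Polynomial.map_X, Polynomial.map_sub,
      Polynomial.map_one, map_mul, map_pow, map_sub, map_one, aeval_X] at h2
    rw [h2, hchar, mul_zero]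


namespace Fibration

variable (T : Fibration Z)

/-- cup product with the class of the fibre -/
abbrev N : Module.End F Z.H := T.dn ∘ₗ T.up

lemma N_corr : T.N ∈ Z.corr 1 := T.fibre_alg

lemma N_apply (x : Z.H) : T.N x = T.dn (T.up x) := rfl

lemma N_L (x : Z.H) : T.N (Z.L x) = Z.L (T.N x) := by
  rw [N_apply, N_apply, T.maps.up_L, T.maps.dn_L]

lemma N_Lpow (k : ℕ) (x : Z.H) : T.N ((Z.L ^ k) x) = (Z.L ^ k) (T.N x) := by
  induction k generalizing x with
  | zero => simp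
  | succ k ih => rw [pow_succ, Module.End.mul_apply, Module.End.mul_apply, ih, T.N_L]

lemma up_Lpow (k : ℕ) (x : Z.H) : T.up ((Z.L ^ k) x) = (T.LY ^ k) (T.up x) := by
  induction k generalizing x with
  | zero => simp
  | succ k ih => rw [pow_succ, Module.End.mul_apply, pow_succ, Module.End.mul_apply, ih,
      T.maps.up_L]

lemma up_dn_apply (y : T.W) : T.up (T.dn y) = 0 := by
  have h := T.maps.up_dn
  exact congrArg (fun f => f y) h

lemma N_N (x : Z.H) : T.N (T.N x) = 0 := by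
  rw [N_apply, N_apply, T.up_dn_apply, map_zero]

/-- the kernel of `N` is the kernel of the restriction -/
lemma up_eq_zero {x : Z.H} (h : T.N x = 0) : T.up x = 0 :=
  T.cycles.semisimple _ ((T.cycles.invariant _).mpr ⟨x, rfl⟩) h

lemma ρ_Lpow (g : T.Γ) (k : ℕ) (y : T.W) : T.ρ g ((T.LY ^ k) y) = (T.LY ^ k) (T.ρ g y) := by
  induction k generalizing y with
  | zero => simp
  | succ k ih => rw [pow_succ, Module.End.mul_apply, Module.End.mul_apply, ih, T.action.comm_L]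

/-- hard Lefschetz on the fibre: injectivity -/
lemma B1 (k : ℕ) (hk : 1 ≤ k) {x : Z.H} (hx : Z.π ((Z.dim : ℤ) - k) x = x)
    (h : T.N ((Z.L ^ (k - 1)) x) = 0) : T.N x = 0 := by
  by_cases hkn : k ≤ Z.dim
  · have h1 := T.up_eq_zero h
    rw [T.up_Lpow] at h1
    have h2 : T.up x = 0 := by
      refine T.hardY.inj (Z.dim - k) (by omega) (T.up x) ?_ ?_
      · rw [show ((Z.dim - k : ℕ) : ℤ) = (Z.dim : ℤ) - k by omega, ← T.maps.up_deg, hx]
      · rw [show Z.dim - 1 - (Z.dim - k) = k - 1 by omega]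
        exact h1
    rw [N_apply, h2, map_zero]
  · rw [Z.homog_zero (Or.inl (by omega)) hx, map_zero]

/-- hard Lefschetz on the fibre and invariant cycles: surjectivity -/
lemma B2 (k : ℕ) (hk : 1 ≤ k) {y : Z.H} (hy : Z.π ((Z.dim : ℤ) + k - 2) y = y) :
    ∃ x, Z.π ((Z.dim : ℤ) - k) x = x ∧ T.N y = T.N ((Z.L ^ (k - 1)) x) := by
  have hd := T.dim_pos
  have hu : T.πY ((Z.dim : ℤ) + k - 2) (T.up y) = T.up y := by
    rw [← T.maps.up_deg, hy]
  by_cases hkn : k ≤ Z.dim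
  · obtain ⟨w, hw, hw2⟩ := T.hardY.surj (Z.dim - k) (by omega) (T.up y) (by
      rw [show (2 * ((Z.dim - 1 : ℕ) : ℤ) - ((Z.dim - k : ℕ) : ℤ)) = (Z.dim : ℤ) + k - 2 by omega]
      exact hu)
    rw [show Z.dim - 1 - (Z.dim - k) = k - 1 by omega] at hw2
    have hinv : ∀ g, T.ρ g w = w := by
      intro g
      rw [← sub_eq_zero]
      refine T.hardY.inj (Z.dim - k) (by omega) _ ?_ ?_
      · rw [map_sub, ← T.action.comm_π, hw]
      · rw [show Z.dim - 1 - (Z.dim - k) = k - 1 by omega, map_sub, ← T.ρ_Lpow, hw2,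
          (T.cycles.invariant _).mpr ⟨y, rfl⟩ g, sub_self]
    obtain ⟨x, hx⟩ := (T.cycles.invariant w).mp hinv
    refine ⟨Z.π ((Z.dim : ℤ) - k) x, Z.π_apply_idem _ _, ?_⟩
    have e : ((Z.dim - k : ℕ) : ℤ) = (Z.dim : ℤ) - k := by omega
    have h1 : T.up (Z.π ((Z.dim : ℤ) - k) x) = w := by
      rw [T.maps.up_deg, hx, ← e]
      exact hw
    rw [N_apply, N_apply, T.up_Lpow, h1, hw2]
  · refine ⟨0, map_zero _, ?_⟩
    have h0 : T.up y = 0 := by
      rw [← hu, T.gradingY.out _ (Or.inr (by omega)), LinearMap.zero_apply]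
    rw [N_apply, h0, map_zero, map_zero, map_zero]

end Fibration

/-- algebraic inverses of the powers of the Lefschetz operator -/
lemma exists_inv (hB : Z.Lefschetz) (k : ℕ) : ∃ Λ ∈ Z.corr (-k),
    ∀ x, Z.π ((Z.dim : ℤ) - k) x = x → Λ ((Z.L ^ k) x) = x := by
  by_cases hk : k ≤ Z.dim
  · obtain ⟨θ, hθ, h⟩ := hB (Z.dim - k) (by omega)
    refine ⟨θ, by rwa [show -(k : ℤ) = ((Z.dim - k : ℕ) : ℤ) - Z.dim by omega], ?_⟩
    intro x hx
    have := h x (by rw [show ((Z.dim - k : ℕ) : ℤ) = (Z.dim : ℤ) - k by omega]; exact hx)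
    rwa [show Z.dim - (Z.dim - k) = k by omega] at this
  · exact ⟨0, (Z.corr _).zero_mem, fun x hx => by
      rw [Z.homog_zero (Or.inl (by omega)) hx, map_zero, map_zero]⟩

lemma hard_surj' (k : ℕ) {y : Z.H} (hy : Z.π ((Z.dim : ℤ) + k) y = y) :
    ∃ x, Z.π ((Z.dim : ℤ) - k) x = x ∧ (Z.L ^ k) x = y := by
  by_cases hk : k ≤ Z.dim
  · obtain ⟨x, hx, h⟩ := Z.hard_surj (Z.dim - k) (by omega) y (by
      rw [show (2 * (Z.dim : ℤ) - ((Z.dim - k : ℕ) : ℤ)) = (Z.dim : ℤ) + k by omega]; exact hy)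
    rw [show Z.dim - (Z.dim - k) = k by omega] at h
    refine ⟨x, ?_, h⟩
    rw [show ((Z.dim - k : ℕ) : ℤ) = (Z.dim : ℤ) - k by omega] at hx
    exact hx
  · exact ⟨0, map_zero _, by rw [map_zero, Z.homog_zero (Or.inr (by omega)) hy]⟩

lemma Lpow_pred (k : ℕ) (hk : 1 ≤ k) (y : Z.H) : (Z.L ^ (k - 1)) (Z.L y) = (Z.L ^ k) y := by
  obtain ⟨k, rfl⟩ : ∃ k', k = k' + 1 := ⟨k - 1, by omega⟩
  rw [pow_succ, Module.End.mul_apply, Nat.add_sub_cancel]

lemma Lpow_homog (m : ℕ) {i j : ℤ} (hj : j = i + 2 * m) {x : Z.H} (hx : Z.π i x = x) :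
    Z.π j ((Z.L ^ m) x) = (Z.L ^ m) x :=
  Z.corr_homog (Z.Lpow_corr m) hj hx

namespace Fibration

variable (T : Fibration Z)

lemma N_homog {i j : ℤ} (hj : j = i + 2) {x : Z.H} (hx : Z.π i x = x) :
    Z.π j (T.N x) = T.N x :=
  Z.corr_homog T.N_corr (by rw [hj]; ring) hx

/-- the operator `k L^(-k) L^(k-1) N` on `H^(n-k)` -/
noncomputable def op (k : ℕ) (Λ : Module.End F Z.H) : Module.End F Z.H :=
  (k : F) • (Λ * Z.L ^ (k - 1) * T.N * Z.π ((Z.dim : ℤ) - k))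

lemma op_corr (hK : Z.Kunneth) (k : ℕ) (hk : 1 ≤ k) {Λ : Module.End F Z.H}
    (hΛ : Λ ∈ Z.corr (-k)) : T.op k Λ ∈ Z.corr 0 := by
  unfold op
  have h := Z.corr_smul (k : ℚ) 0 _ (Z.corr_mul' (t := 0) (r := 0) (s := 0) (by ring)
    (Z.corr_mul' (t := 0) (r := -1) (s := 1) (by ring)
      (Z.corr_mul' (t := -1) (by omega) hΛ (Z.Lpow_corr (k - 1))) T.N_corr)
    (hK ((Z.dim : ℤ) - k)))
  rwa [Rat.cast_natCast] at h

lemma op_apply (k : ℕ) (Λ : Module.End F Z.H) {x : Z.H} (hx : Z.π ((Z.dim : ℤ) - k) x = x) :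
    T.op k Λ x = (k : F) • Λ ((Z.L ^ (k - 1)) (T.N x)) := by
  unfold op
  rw [LinearMap.smul_apply, Module.End.mul_apply, Module.End.mul_apply, Module.End.mul_apply, hx]

lemma op_π (k : ℕ) (Λ : Module.End F Z.H) :
    T.op k Λ * Z.π ((Z.dim : ℤ) - k) = T.op k Λ := by
  unfold op
  rw [smul_mul_assoc, mul_assoc (Λ * Z.L ^ (k - 1) * T.N), Z.π_idem]

section step

variable {T} {k : ℕ} (hk : 1 ≤ k) {Λ : Module.End F Z.H} (hΛ : Λ ∈ Z.corr (-k))
  (hinv : ∀ x, Z.π ((Z.dim : ℤ) - k) x = x → Λ ((Z.L ^ k) x) = x)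

include hk hΛ in
lemma op_homog {x : Z.H} (hx : Z.π ((Z.dim : ℤ) - k) x = x) :
    Z.π ((Z.dim : ℤ) - k) (T.op k Λ x) = T.op k Λ x := by
  rw [T.op_apply k Λ hx, map_smul]
  congr 1
  refine Z.corr_homog hΛ (i := (Z.dim : ℤ) + k) (by ring) ?_
  exact Lpow_homog (k - 1) (by omega) (T.N_homog rfl hx)

include hk hinv in
/-- `L^k T x = k L^(k-1) N x` -/
lemma L_op {x : Z.H} (hx : Z.π ((Z.dim : ℤ) - k) x = x) :
    (Z.L ^ k) (T.op k Λ x) = (k : F) • (Z.L ^ (k - 1)) (T.N x) := by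
  rw [T.op_apply k Λ hx, map_smul]
  congr 1
  obtain ⟨y, hy, h⟩ := hard_surj' (Z := Z) k (y := (Z.L ^ (k - 1)) (T.N x))
    (Lpow_homog (k - 1) (by omega) (T.N_homog rfl hx))
  rw [← h, hinv y hy]

include hk hinv in
/-- `N L^k T x = 0` -/
lemma N_L_op {x : Z.H} (hx : Z.π ((Z.dim : ℤ) - k) x = x) :
    T.N ((Z.L ^ k) (T.op k Λ x)) = 0 := by
  rw [L_op hk hinv hx, map_smul, T.N_Lpow, T.N_N, map_zero, smul_zero]

include hk hinv in
/-- `T (L w) = k N w` -/
lemma op_L {w : Z.H} (hw : Z.π ((Z.dim : ℤ) - k - 2) w = w) :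
    T.op k Λ (Z.L w) = (k : F) • T.N w := by
  have h1 : Z.π ((Z.dim : ℤ) - k) (Z.L w) = Z.L w := Z.corr_homog Z.L_corr (by ring) hw
  rw [T.op_apply k Λ h1, T.N_L, Lpow_pred k hk, hinv _ (T.N_homog (by ring) hw)]

/-- `T (N w) = 0` -/
lemma op_N {w : Z.H} (hw : Z.π ((Z.dim : ℤ) - k - 2) w = w) : T.op k Λ (T.N w) = 0 := by
  rw [T.op_apply k Λ (T.N_homog (by ring) hw), T.N_N, map_zero, map_zero, smul_zero]

include hk hΛ hinv in
/-- injectivity of `T` on the primitive part modulo the kernel of `N` -/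
lemma op_inj {x : Z.H} (hx : Z.π ((Z.dim : ℤ) - k) x = x) (hp : T.N ((Z.L ^ k) x) = 0)
    (h : T.N (T.op k Λ x) = 0) : T.N x = 0 := by
  have hk0 : (k : F) ≠ 0 := by exact_mod_cast (by omega : k ≠ 0)
  obtain ⟨w₀, hw₀⟩ := T.relative k (T.op k Λ x) (op_homog hk hΛ hx) h
    ⟨(k : F) • (Z.L ^ (k - 1)) x, by
      rw [L_op hk hinv hx]
      show _ = T.N _
      rw [map_smul, T.N_Lpow]⟩
  set w := Z.π ((Z.dim : ℤ) - k - 2) w₀ with hw
  have hwh : Z.π ((Z.dim : ℤ) - k - 2) w = w := Z.π_apply_idem _ _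
  have hTw : T.op k Λ x = T.N w := by
    have h1 := Z.corr_deg_apply T.N_corr ((Z.dim : ℤ) - k - 2) w₀
    rw [hw, h1, show ((Z.dim : ℤ) - k - 2 + 2 * 1) = (Z.dim : ℤ) - k by ring]
    have h2 : T.op k Λ x = T.N w₀ := hw₀
    rw [← h2, op_homog hk hΛ hx]
  have h1 : T.N ((Z.L ^ (k - 1)) (Z.L w - (k : F) • x)) = 0 := by
    have h2 : (Z.L ^ k) (T.op k Λ x) = (k : F) • (Z.L ^ (k - 1)) (T.N x) := L_op hk hinv hx
    rw [hTw] at h2
    rw [map_sub, map_sub, sub_eq_zero, Lpow_pred k hk, T.N_Lpow, h2, map_smul, map_smul,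
      T.N_Lpow]
  have h2 : T.N (Z.L w - (k : F) • x) = 0 := by
    refine T.B1 k hk ?_ h1
    rw [map_sub, map_smul, hx, Z.corr_homog Z.L_corr (by ring) hwh]
  rw [map_sub, map_smul, sub_eq_zero] at h2
  have h3 : T.N w = 0 := by
    refine T.B1 (k + 2) (by omega) (by
      rw [show ((Z.dim : ℤ) - ((k + 2 : ℕ) : ℤ)) = (Z.dim : ℤ) - k - 2 by push_cast; ring]
      exact hwh) ?_
    rw [show k + 2 - 1 = k + 1 by omega, pow_succ, Module.End.mul_apply, T.N_Lpow, h2, map_smul,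
      ← T.N_Lpow, hp, smul_zero]
  rw [T.N_L, h3, map_zero] at h2
  exact (smul_eq_zero.mp h2.symm).resolve_left hk0

include hk hΛ hinv in
/-- the part of `x` killed by a power of `T` is, modulo the kernel of `N`, a multiple of `L` -/
lemma nil_part {z : Z.H} (hz : Z.π ((Z.dim : ℤ) - k) z = z) {M : ℕ}
    (hM : ((T.op k Λ) ^ M) z = 0) :
    ∃ w, Z.π ((Z.dim : ℤ) - k - 2) w = w ∧ T.N z = T.N (Z.L w) := by
  obtain ⟨w, hw, hw2⟩ := T.B2 (k + 2) (by omega) (y := (Z.L ^ k) z) (by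
    rw [show ((Z.dim : ℤ) + ((k + 2 : ℕ) : ℤ) - 2) = (Z.dim : ℤ) + k by push_cast; ring]
    exact Lpow_homog k (by ring) hz)
  rw [show ((Z.dim : ℤ) - ((k + 2 : ℕ) : ℤ)) = (Z.dim : ℤ) - k - 2 by push_cast; ring] at hw
  refine ⟨w, hw, ?_⟩
  have hLw : Z.π ((Z.dim : ℤ) - k) (Z.L w) = Z.L w := Z.corr_homog Z.L_corr (by ring) hw
  set p := z - Z.L w with hp
  have hph : Z.π ((Z.dim : ℤ) - k) p = p := by rw [hp, map_sub, hz, hLw]
  have hprim : T.N ((Z.L ^ k) p) = 0 := by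
    rw [hp, map_sub, map_sub, hw2, show k + 2 - 1 = k + 1 by omega, pow_succ,
      Module.End.mul_apply, sub_self]
  have hhom : ∀ m, Z.π ((Z.dim : ℤ) - k) (((T.op k Λ) ^ m) p) = ((T.op k Λ) ^ m) p := by
    intro m
    induction m with
    | zero => simpa using hph
    | succ m ih =>
      rw [pow_succ', Module.End.mul_apply]
      exact op_homog hk hΛ ih
  have hprim' : ∀ m, T.N ((Z.L ^ k) (((T.op k Λ) ^ m) p)) = 0 := by
    intro m
    cases m with
    | zero => simpa using hprim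
    | succ m =>
      rw [pow_succ', Module.End.mul_apply]
      exact N_L_op hk hinv (hhom m)
  have hnil : ((T.op k Λ) ^ (M + 2)) p = 0 := by
    have h1 : ((T.op k Λ) ^ 2) (Z.L w) = 0 := by
      rw [pow_two, Module.End.mul_apply, op_L hk hinv hw, map_smul, op_N hw, smul_zero]
    rw [hp, map_sub, pow_add, Module.End.mul_apply, Module.End.mul_apply, h1, map_zero, sub_zero,
      ← Module.End.mul_apply, ← pow_add, add_comm, pow_add, Module.End.mul_apply, hM, map_zero]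
  have hdesc : ∀ m, T.N (((T.op k Λ) ^ m) p) = 0 → T.N p = 0 := by
    intro m
    induction m with
    | zero => intro h; simpa using h
    | succ m ih =>
      intro h
      apply ih
      rw [pow_succ', Module.End.mul_apply] at h
      exact op_inj hk hΛ hinv (hhom m) (hprim' m) h
  have h0 : T.N p = 0 := hdesc (M + 2) (by rw [hnil, map_zero])
  rw [hp, map_sub, sub_eq_zero] at h0
  exact h0

end step

/-- `u` is a quasi-inverse of `N` in degrees `n - k` and `n + k - 2`. -/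
def Inv (k : ℕ) : Prop :=
  (∃ u ∈ Z.corr (-1), ∀ x, Z.π ((Z.dim : ℤ) - k) x = x → T.N (u (T.N x)) = T.N x) ∧
  (∃ u ∈ Z.corr (-1), ∀ x, Z.π ((Z.dim : ℤ) + k - 2) x = x → T.N (u (T.N x)) = T.N x)

/-- the inductive step -/
lemma inv_step (hB : Z.Lefschetz) (hK : Z.Kunneth) (k : ℕ) (hk : 1 ≤ k) (h : T.Inv (k + 2)) :
    T.Inv k := by
  obtain ⟨Λ, hΛ, hinv⟩ := exists_inv hB k
  obtain ⟨P, hP, M, hcomm, hM⟩ := fitting (T.op k Λ) ((Z.dim : ℤ) - k) (T.op_corr hK k hk hΛ)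
    (T.op_π k Λ)
  obtain ⟨u', hu', hu2'⟩ := h.1
  have hu2 : ∀ w, Z.π ((Z.dim : ℤ) - k - 2) w = w → T.N (u' (T.N w)) = T.N w := by
    intro w hw
    apply hu2'
    rw [show ((Z.dim : ℤ) - ((k + 2 : ℕ) : ℤ)) = (Z.dim : ℤ) - k - 2 by push_cast; ring]
    exact hw
  -- the decomposition of an element
  have key : ∀ x, Z.π ((Z.dim : ℤ) - k) x = x → ∃ w, Z.π ((Z.dim : ℤ) - k - 2) w = w ∧
      T.N (x - P (T.op k Λ x)) = Z.L (T.N w) ∧
      Λ ((Z.L ^ (k - 1)) (T.N (x - P (T.op k Λ x)))) = T.N w := by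
    intro x hx
    have hPh : Z.π ((Z.dim : ℤ) - k) (P (T.op k Λ x)) = P (T.op k Λ x) :=
      Z.corr_homog hP (by ring) (op_homog hk hΛ hx)
    have hz : Z.π ((Z.dim : ℤ) - k) (x - P (T.op k Λ x)) = x - P (T.op k Λ x) := by
      rw [map_sub, hx, hPh]
    have hMz : ((T.op k Λ) ^ M) (x - P (T.op k Λ x)) = 0 := by
      have := congrArg (fun f => f x) hM
      simpa using this
    obtain ⟨w, hw, hw2⟩ := nil_part hk hΛ hinv hz hMz
    refine ⟨w, hw, by rw [hw2, T.N_L], ?_⟩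
    rw [hw2, T.N_L, Lpow_pred k hk]
    exact hinv _ (T.N_homog (by ring) hw)
  have hΛL : Λ * Z.L ^ (k - 1) ∈ Z.corr (-1) := Z.corr_mul' (by omega) hΛ (Z.Lpow_corr (k - 1))
  constructor
  · -- lower half
    have hA : P * ((k : F) • (Λ * Z.L ^ (k - 1))) ∈ Z.corr (-1) := by
      have h1 := Z.corr_smul (k : ℚ) _ _ hΛL
      rw [Rat.cast_natCast] at h1
      exact Z.corr_mul' (by ring) hP h1
    refine ⟨P * ((k : F) • (Λ * Z.L ^ (k - 1))) +
      Z.L * (u' * ((Λ * Z.L ^ (k - 1)) * (1 - T.N * (P * ((k : F) • (Λ * Z.L ^ (k - 1))))))),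
      (Z.corr _).add_mem hA (Z.corr_mul' (s := -2) (by ring) Z.L_corr (Z.corr_mul' (s := -1)
        (by ring) hu' (Z.corr_mul' (s := 0) (by ring) hΛL ((Z.corr 0).sub_mem Z.corr_one
          (Z.corr_mul' (by ring) T.N_corr hA))))), ?_⟩
    intro x hx
    obtain ⟨w, hw, h1, h2⟩ := key x hx
    have e1 : (P * ((k : F) • (Λ * Z.L ^ (k - 1)))) (T.N x) = P (T.op k Λ x) := by
      rw [Module.End.mul_apply, LinearMap.smul_apply, Module.End.mul_apply, T.op_apply k Λ hx]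
    have e2 : (Z.L * (u' * ((Λ * Z.L ^ (k - 1)) *
        (1 - T.N * (P * ((k : F) • (Λ * Z.L ^ (k - 1)))))))) (T.N x) = Z.L (u' (T.N w)) := by
      rw [Module.End.mul_apply, Module.End.mul_apply, Module.End.mul_apply,
        LinearMap.sub_apply, Module.End.one_apply, Module.End.mul_apply T.N, e1, ← map_sub,
        Module.End.mul_apply, h2]
    rw [LinearMap.add_apply, e1, e2, map_add, T.N_L, hu2 w hw, ← h1, ← map_add]
    congr 1
    abel
  · -- upper half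
    have hA : Z.L ^ (k - 1) * (P * ((k : F) • Λ)) ∈ Z.corr (-1) := by
      have h1 := Z.corr_smul (k : ℚ) _ _ hΛ
      rw [Rat.cast_natCast] at h1
      exact Z.corr_mul' (s := -k) (by omega) (Z.Lpow_corr (k - 1)) (Z.corr_mul' (by ring) hP h1)
    refine ⟨Z.L ^ (k - 1) * (P * ((k : F) • Λ)) +
      Z.L ^ k * (u' * (Λ * (1 - T.N * (Z.L ^ (k - 1) * (P * ((k : F) • Λ)))))),
      (Z.corr _).add_mem hA (Z.corr_mul' (s := -1 - k) (by ring) (Z.Lpow_corr k)
        (Z.corr_mul' (s := -k) (by ring) hu' (Z.corr_mul' (s := 0) (by ring) hΛ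
          ((Z.corr 0).sub_mem Z.corr_one (Z.corr_mul' (by ring) T.N_corr hA))))), ?_⟩
    intro y hy
    obtain ⟨x, hx, hyx⟩ := T.B2 k hk hy
    obtain ⟨w, hw, h1, h2⟩ := key x hx
    have e1 : (Z.L ^ (k - 1) * (P * ((k : F) • Λ))) (T.N y) =
        (Z.L ^ (k - 1)) (P (T.op k Λ x)) := by
      rw [hyx, Module.End.mul_apply, Module.End.mul_apply, LinearMap.smul_apply,
        T.op_apply k Λ hx, T.N_Lpow]
    have e2 : (Z.L ^ k * (u' * (Λ * (1 - T.N * (Z.L ^ (k - 1) * (P * ((k : F) • Λ))))))) (T.N y) =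
        (Z.L ^ k) (u' (T.N w)) := by
      rw [Module.End.mul_apply, Module.End.mul_apply, Module.End.mul_apply,
        LinearMap.sub_apply, Module.End.one_apply, Module.End.mul_apply T.N, e1, hyx, ← map_sub,
        ← map_sub, T.N_Lpow, h2]
    rw [LinearMap.add_apply, e1, e2, hyx, map_add, T.N_Lpow, T.N_Lpow, hu2 w hw, T.N_Lpow,
      ← Lpow_pred k hk, ← h1, ← map_add, ← map_add]
    congr 2
    abel

lemma inv_large (k : ℕ) (hk : Z.dim < k) : T.Inv k := by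
  refine ⟨⟨0, (Z.corr _).zero_mem, ?_⟩, ⟨0, (Z.corr _).zero_mem, ?_⟩⟩
  · intro x hx
    rw [Z.homog_zero (Or.inl (by omega)) hx]
    simp
  · intro x hx
    obtain ⟨x', hx', h⟩ := T.B2 k (by omega) hx
    rw [h, Z.homog_zero (Or.inl (by omega)) hx']
    simp

lemma inv_all (hB : Z.Lefschetz) (hK : Z.Kunneth) (k : ℕ) (hk : 1 ≤ k) : T.Inv k := by
  by_cases h : Z.dim < k
  · exact T.inv_large k h
  · have : T.Inv (k + 2) := inv_all hB hK (k + 2) (by omega)
    exact T.inv_step hB hK k hk this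
termination_by Z.dim + 1 - k

/-- The class of a fibre is a regular element of the algebra of algebraic correspondences. -/
theorem regular (hB : Z.Lefschetz) (hK : Z.Kunneth) :
    ∃ u ∈ Z.corr (-1), ∀ x, T.N (u (T.N x)) = T.N x := by
  have h : ∀ j : ℤ, ∃ u ∈ Z.corr (-1), ∀ x, Z.π j x = x → T.N (u (T.N x)) = T.N x := by
    intro j
    rcases le_or_gt ((Z.dim : ℤ) - 1) j with hj | hj
    · obtain ⟨k, hk⟩ : ∃ k : ℕ, (k : ℤ) = j - Z.dim + 2 := ⟨(j - Z.dim + 2).toNat, by omega⟩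
      obtain ⟨u, hu, hu2⟩ := (T.inv_all hB hK k (by omega)).2
      refine ⟨u, hu, fun x hx => hu2 x ?_⟩
      rw [show (Z.dim : ℤ) + k - 2 = j by omega]
      exact hx
    · obtain ⟨k, hk⟩ : ∃ k : ℕ, (k : ℤ) = Z.dim - j := ⟨(Z.dim - j).toNat, by omega⟩
      obtain ⟨u, hu, hu2⟩ := (T.inv_all hB hK k (by omega)).1
      refine ⟨u, hu, fun x hx => hu2 x ?_⟩
      rw [show (Z.dim : ℤ) - k = j by omega]
      exact hx
  choose u hu hu2 using h
  refine ⟨∑ j ∈ Finset.Icc (0 : ℤ) (2 * Z.dim), u j * Z.π (j + 2), Z.corr_sum _ _ fun j _ =>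
    Z.corr_mul' (by ring) (hu j) (hK (j + 2)), ?_⟩
  have hext : T.N * (∑ j ∈ Finset.Icc (0 : ℤ) (2 * Z.dim), u j * Z.π (j + 2)) * T.N = T.N := by
    apply Z.ext_homog
    intro i x hx
    rw [Module.End.mul_apply, Module.End.mul_apply, LinearMap.sum_apply]
    by_cases hi : i ∈ Finset.Icc (0 : ℤ) (2 * Z.dim)
    · rw [Finset.sum_eq_single i]
      · rw [Module.End.mul_apply, T.N_homog rfl hx]
        exact hu2 i x hx
      · intro j _ hji
        rw [Module.End.mul_apply, Z.π_apply_ne (by omega : j + 2 ≠ i + 2) (T.N_homog rfl hx),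
          map_zero]
      · intro h
        exact absurd hi h
    · have h0 : x = 0 := Z.homog_zero (by rw [Finset.mem_Icc, not_and_or] at hi; omega) hx
      subst h0
      simp
  intro x
  exact congrArg (fun f => f x) hext

end Fibration

end Pool.Agent.Helper15.PF
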