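import Pool.Agent.Helper29.CPB.Statement

/-!
# Families over a curve and varieties over the fields of one characteristic

`Variety`, `SelfProduct`, `GenericSection` and the conjectures `CPlus`, `Kunneth`, `Lefschetz` are
in `Pool.Agent.Helper29.CPB.Statement`. In this file: morphisms from a smooth projective variety to
a curve (`Fibration`), models over a curve of a variety over the function field (`CurveModel`), base
field extensions (`Descent`), and the varieties over all fields of one characteristic (`Fields`).
-/

namespace Pool.Agent.Helper15.PF

open Pool.Agent.Helper29.CPB

universe u v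

section Linear

variable {F : Type u} [Field F] {V W : Type v} [AddCommGroup V] [Module F V] [AddCommGroup W]
  [Module F W]

/-- `φ` intertwines the operators `f` and `g`. -/
def Intertwines (φ : V →ₗ[F] W) (f : Module.End F V) (g : Module.End F W) : Prop :=
  ∀ x, φ (f x) = g (φ x)

/-- Restriction `up` and Gysin map `dn` for a smooth fibre `Y`, with cohomology `W`, of a morphism
from a smooth projective variety `Z`, with cohomology `V`, to a curve: degrees, projection formula
for the polarisation, and triviality of the normal bundle of `Y`. -/
structure FibreMaps (π : ℤ → Module.End F V) (L : Module.End F V) (πY : ℤ → Module.End F W)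
    (LY : Module.End F W) (up : V →ₗ[F] W) (dn : W →ₗ[F] V) : Prop where
  up_deg : ∀ i, Intertwines up (π i) (πY i)
  dn_deg : ∀ i, Intertwines dn (πY i) (π (i + 2))
  up_L : Intertwines up L LY
  dn_L : Intertwines dn LY L
  up_dn : up ∘ₗ dn = 0

/-- The operators `ρ g`, `g` in a group `Γ` (a monodromy or Galois group) respect the degrees and
the polarisation. -/
structure IsAction {Γ : Type v} (ρ : Γ → Module.End F V) (π : ℤ → Module.End F V)
    (L : Module.End F V) : Prop where
  comm_π : ∀ g i, Intertwines (ρ g) (π i) (π i)
  comm_L : ∀ g, Intertwines (ρ g) L L

/-- `y` is invariant. -/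
def Invariant {Γ : Type v} (ρ : Γ → Module.End F V) (y : V) : Prop :=
  ∀ g, ρ g y = y

/-- The monodromy group `Γ` of the smooth part of the family acts on the cohomology `W` of the fibre
`Y`. Global invariant cycle theorem (Deligne): the image of the restriction is the space of
invariants. Semisimplicity of the monodromy (Deligne): the Gysin map is injective on the
invariants (its kernel is the orthogonal of the invariants). -/
structure InvariantCycles {Γ : Type v} (ρ : Γ → Module.End F W) (up : V →ₗ[F] W)
    (dn : W →ₗ[F] V) : Prop where
  invariant : ∀ y, Invariant ρ y ↔ ∃ x, up x = y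
  semisimple : ∀ y, Invariant ρ y → dn y = 0 → y = 0

/-- The relative hard Lefschetz theorem (Beilinson, Bernstein, Deligne, Gabber) for a morphism from
`Z`, of dimension `n`, to a curve, with the class of a fibre acting by `N`, `N ^ 2 = 0`: for `k ≥ 0`
the operator `L ^ k` is injective on the part of degree `n - k` of `ker N / im N` (the cohomology in
degree `0` of the perverse sheaves on the curve). -/
def RelativeHardLefschetz (n : ℕ) (π : ℤ → Module.End F V) (L N : Module.End F V) : Prop :=
  ∀ (k : ℕ) (y : V), π (n - k) y = y → N y = 0 → (∃ z, (L ^ k) y = N z) → ∃ x, y = N x

/-- `f'` is the mean of finitely many conjugates of `f`. -/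
def IsMean {Γ : Type v} (ρ : Γ → Module.End F V) (f f' : Module.End F V) : Prop :=
  ∃ (m : ℕ) (σ τ : Fin m → Γ), 1 ≤ m ∧ (∀ i, ρ (σ i) * ρ (τ i) = 1) ∧
    (m : F) • f' = ∑ i, ρ (σ i) * f * ρ (τ i)

/-- Correspondences of the special fibre `Xs` (cohomology `V`, algebraic correspondences `alg`,
monodromy `mon`) and classes on the fibre `Y` (cohomology `W`, monodromy `ρ`) of the total space
(cohomology `V'`, algebraic classes `cyc`). The operators on `V` are the classes on `Xs × Xs`, and
`pull` is the pull-back of classes from `Xs × Xs` to `Y`: the class of an operator commuting with
the monodromy is invariant; pull-backs and Gysin images of algebraic classes are algebraic. -/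
structure IsPull {V' Γ : Type v} [AddCommGroup V'] [Module F V'] (alg : ℤ → Module.End F V → Prop)
    (mon : Γ → Module.End F V) (ρ : Γ → Module.End F W) (cyc : V' → Prop) (dn : W →ₗ[F] V')
    (pull : Module.End F V → W) : Prop where
  invariant : ∀ f, (∀ g, Intertwines (mon g) f f) → Invariant ρ (pull f)
  algebraic : ∀ r f, alg r f → cyc (dn (pull f))

/-- If the algebraic class `z` on the total space restricts to the pull-back of `f`, of degree `r`,
then the operator `f'` on the cohomology `V` of the generic fibre `X` which corresponds to `f` is
algebraic: it is given by `m⁻¹` times the restriction to the generic fibre of the push-forward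
of `z`. -/
def IsPush {U V' : Type v} [AddCommGroup U] [Module F U] [AddCommGroup V'] [Module F V']
    (alg : ℤ → Module.End F V → Prop) (sp : V →ₗ[F] U) (π : ℤ → Module.End F U)
    (cyc : V' → Prop) (up : V' →ₗ[F] W) (pull : Module.End F U → W) : Prop :=
  ∀ r f z, (∀ i, Intertwines f (π i) (π (i + 2 * r))) → cyc z → up z = pull f →
    ∀ f', Intertwines sp f' f → alg r f'

end Linear

variable {F : Type u} [Field F]

/-- A morphism from the smooth projective variety `Z` over an algebraically closed field `k` to a
smooth projective curve, with a smooth fibre `Y` over a `k`-rational point. -/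
structure Fibration (Z : Variety.{u, v} F) where
  /-- the cohomology of the fibre `Y` -/
  W : Type v
  [instGroup : AddCommGroup W]
  [instModule : Module F W]
  /-- the projector onto `H^i(Y)` -/
  πY : ℤ → Module.End F W
  /-- the Lefschetz operator of `Y` -/
  LY : Module.End F W
  dim_pos : 1 ≤ Z.dim
  gradingY : IsGrading (Z.dim - 1) πY
  hardY : HardLefschetz (Z.dim - 1) πY LY
  /-- restriction to `Y` -/
  up : Z.H →ₗ[F] W
  /-- Gysin map -/
  dn : W →ₗ[F] Z.H
  maps : FibreMaps Z.π Z.L πY LY up dn
  /-- the monodromy group and its representation on the cohomology of `Y` -/
  Γ : Type v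
  ρ : Γ → Module.End F W
  action : IsAction ρ πY LY
  cycles : InvariantCycles ρ up dn
  relative : RelativeHardLefschetz Z.dim Z.π Z.L (dn ∘ₗ up)
  /-- cup product with the class of the divisor `Y` is given by an algebraic correspondence -/
  fibre_alg : Z.alg 1 (dn ∘ₗ up)
  /-- the algebraic classes on `Z`: the `ℚ`-combinations of the classes of cycles -/
  cyc : Z.H → Prop
  /-- algebraic correspondences respect algebraic classes -/
  cyc_alg : ∀ r f z, Z.alg r f → cyc z → cyc (f z)

attribute [instance] Fibration.instGroup Fibration.instModule

/-- The variational Tate conjecture for the family `Z` over the curve: a monodromy invariant class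
on the fibre `Y` whose Gysin image is algebraic on `Z` (in particular every monodromy invariant
algebraic class on `Y`) is the restriction of an algebraic class on `Z`. -/
def Fibration.Variational {Z : Variety.{u, v} F} (T : Fibration Z) : Prop :=
  ∀ ξ : T.W, Invariant T.ρ ξ → T.cyc (T.dn ξ) → ∃ β, T.cyc β ∧ T.up β = ξ

/-- `X` and `Xs` are polarised varieties of the same dimension with the same cohomology. -/
structure SameCohomology (X Xs : Variety.{u, v} F) (sp : X.H →ₗ[F] Xs.H) : Prop where
  dim : Xs.dim = X.dim
  bij : Function.Bijective sp
  deg : ∀ i, Intertwines sp (X.π i) (Xs.π i)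
  polar : Intertwines sp X.L Xs.L

/-- A model over a curve. Here `X` is defined over an algebraic closure `K` of the function field of
a smooth projective curve `C` over the algebraically closed field `k`. After a finite covering of
`C`, `X` is the geometric generic fibre of a smooth projective family `𝒳` over an open part `U` of
`C`; `Xs` is its fibre over a point `s` of `U`; `Z` (smooth and projective over `k`, with a morphism
to `C` with connected fibres that is smooth over `U`) is an alteration, of some degree `m` on each
fibre over `U`, of a compactification of `𝒳 ×_U 𝒳`, with fibre `Y` over `s`. -/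
structure CurveModel (X Xs Z : Variety.{u, v} F) extends Fibration Z where
  dim_total : Z.dim = 2 * X.dim + 1
  /-- the specialisation isomorphism in cohomology -/
  sp : X.H →ₗ[F] Xs.H
  same : SameCohomology X Xs sp
  /-- the monodromy representation on the cohomology of `Xs` -/
  mon : Γ → Module.End F Xs.H
  action_mon : IsAction mon Xs.π Xs.L
  /-- pull-back of classes from `Xs × Xs` to `Y` -/
  pull : Module.End F Xs.H → W
  isPull : IsPull Xs.alg mon ρ cyc dn pull
  isPush : IsPush X.alg sp Xs.π cyc up pull

/-- Base field extension: `X` is defined over a perfect field `K` and `X₀` over an algebraically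
closed subfield `k` of the algebraic closure of `K`, and they become isomorphic over it. -/
structure Descent (X₀ X : Variety.{u, v} F) where
  /-- `X` and `X₀` have the same cohomology -/
  e : X.H →ₗ[F] X₀.H
  same : SameCohomology X X₀ e
  /-- the Galois group of `K` and its action on the cohomology of `X`, with the Tate twist
  `⌊i/2⌋` on `H^i(X)`: it commutes with the polarisation, and conjugation by it is the action on
  correspondences -/
  Γ : Type v
  ρ : Γ → Module.End F X.H
  action : IsAction ρ X.π X.L
  /-- an algebraic correspondence has finitely many conjugates, and their mean is algebraic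
  over `K` -/
  mean : ∀ r f₀ f, X₀.alg r f₀ → Intertwines e f f₀ → ∃ f', X.alg r f' ∧ IsMean ρ f f'

/-- The smooth projective varieties over the perfect fields of one characteristic. -/
structure Fields (F : Type u) [Field F] where
  /-- the polarised varieties over all perfect fields of the given characteristic -/
  all : Set (Variety.{u, v} F)
  /-- those over algebraically closed fields of transcendence degree `n` over the prime field; for
  `n = 0` over an algebraic closure of the prime field -/
  closed : ℕ → Set (Variety.{u, v} F)
  closed_subset : ∀ n, closed n ⊆ all
  /-- generic hyperplane sections of squares, over the perfect closure of a field of rational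
  functions over the base field -/
  sections : ∀ X ∈ all, 1 ≤ X.dim → ∃ (Z : Variety.{u, v} F) (μ : X.H → X.H → Z.H),
    SelfProduct X Z μ ∧ ∃ S ∈ all, Nonempty (GenericSection Z S 1)
  /-- an algebraically closed field of transcendence degree `n + 1` is an algebraic closure of the
  function field of a curve over an algebraically closed field of transcendence degree `n` -/
  curve : ∀ n, ∀ X ∈ closed (n + 1), ∃ Xs ∈ closed n, ∃ Z ∈ closed n, Nonempty (CurveModel X Xs Z)
  /-- every variety is defined over a field of finite transcendence degree -/
  descent : ∀ X ∈ all, ∃ n, ∃ X₀ ∈ closed n, Nonempty (Descent X₀ X)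

end Pool.Agent.Helper15.PF
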